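import Mathlib
import Pool.Agent.Lib.helper18.Chaos
import Pool.Agent.Lib.helper18.Sand

namespace Pool.Agent.Results.MP_28d764_an.Chaos

open Filter Topology Real Pool.Agent.Lib.helper18.Chaos Pool.Agent.Lib.helper18.Sand

theorem result : ∃ (α γ δ C D : ℝ) (x : ℕ → ℝ), 0 < α ∧ 0 < γ ∧ 0 < δ ∧ 0 < C ∧ 0 < D ∧
    (∀ n, 0 < x n) ∧
    (∀ n, x (n + 3) = (α + x (n + 2) + γ * x (n + 1) + δ * x n) /
      (x (n + 2) + C * x (n + 1) + D * x n)) ∧
    (∀ c : ℝ, ¬ Tendsto x atTop (𝓝 c)) ∧
    ∀ (p : ℕ → ℝ) (k : ℕ), 1 ≤ k → (∀ n, p (n + k) = p n) →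
      ¬ Tendsto (fun n => x n - p n) atTop (𝓝 0) := by
  set L : ℝ := 2 * 10 ^ 7 with hL
  have hL1 : 1 ≤ L := by rw [hL]; norm_num
  obtain ⟨z, -, -, -, hpos, hrec, hbd, hap⟩ := chaos L le_rfl
    (fun w v u => (exp (-20 * L) + exp (-L) * u + exp (-20 * L) * v + w) /
      (u + exp (-20 * L) * v + exp (-20 * L) * w))
    (by fun_prop (disch := intro; positivity)) (fun w v u hw hv hu => by positivity)
    (fun w v u hw hv hu => by
      have hw0 := (exp_pos _).trans_le hw.1
      have hv0 := (exp_pos _).trans_le hv.1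
      have hu0 := (exp_pos _).trans_le hu.1
      have t0 := tiny hL1 hw.2 hu.1
      have t1 := tiny hL1 hv.2 hu.1
      have t2 := tiny1 hL1 hu.1
      have t3 := small hL1 hu0
      have t4 := exp_pos (-20 * L)
      have t5 := mul_pos t4 hv0
      have t6 := mul_pos t4 hw0
      exact sand (exp_pos (-L)) hw0 hu0 (by linarith) (by linarith) (by linarith) (by linarith))
  have key : ∀ (p : ℕ → ℝ) (k : ℕ), 1 ≤ k → (∀ n, p (n + k) = p n) →
      ¬ Tendsto (fun n => exp L * z n - p n) atTop (𝓝 0) := by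
    intro p k hk hp h
    apply hap k hk
    have h1 := (diff_of_per (fun n => exp L * z n) p k hp h).const_mul (exp L)⁻¹
    rw [mul_zero] at h1
    exact h1.congr fun n => by field_simp
  refine ⟨exp (-20 * L) * exp L ^ 2, exp (-20 * L) * exp L, exp L, exp (-20 * L), exp (-20 * L),
    fun n => exp L * z n, by positivity, by positivity,
    exp_pos _, exp_pos _, exp_pos _, fun n => by have := hpos n; positivity, fun n => ?_,
    fun c h => key (fun _ => c) 1 le_rfl (fun _ => rfl) (tendsto_sub_nhds_zero_iff.2 h), key⟩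
  have a := hpos n
  have b := hpos (n + 1)
  have c := hpos (n + 2)
  simp only []
  rw [hrec, exp_neg]
  field_simp

end Pool.Agent.Results.MP_28d764_an.Chaos
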